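import Mathlib
import Pool.Agent.Q11.HopfFour

set_option autoImplicit false

namespace Pool.Agent.Results.MP_2a0e18_al.InfinitelyManyProjections

open TensorProduct

universe u

/-- `P` is a right group-like projection: `P ≠ 0`, `P² = P` and
`Δ(P)(1 ⊗ P) = P ⊗ P = (1 ⊗ P)Δ(P)`. -/
def IsRightGroupLikeProjection (k : Type u) [Field k] (A : Type u) [Ring A] [HopfAlgebra k A]
    (P : A) : Prop :=
  P ≠ 0 ∧ P * P = P ∧ Coalgebra.comul (R := k) P * ((1 : A) ⊗ₜ[k] P) = P ⊗ₜ[k] P ∧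
    ((1 : A) ⊗ₜ[k] P) * Coalgebra.comul (R := k) P = P ⊗ₜ[k] P

/-- `P` is a left group-like projection: `P ≠ 0`, `P² = P` and
`Δ(P)(P ⊗ 1) = P ⊗ P = (P ⊗ 1)Δ(P)`. -/
def IsLeftGroupLikeProjection (k : Type u) [Field k] (A : Type u) [Ring A] [HopfAlgebra k A]
    (P : A) : Prop :=
  P ≠ 0 ∧ P * P = P ∧ Coalgebra.comul (R := k) P * (P ⊗ₜ[k] (1 : A)) = P ⊗ₜ[k] P ∧
    (P ⊗ₜ[k] (1 : A)) * Coalgebra.comul (R := k) P = P ⊗ₜ[k] P

/-- Over every infinite field of characteristic `2` (and such fields exist) there is a Hopf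
algebra of dimension `4` whose set of two-sided group-like projections is infinite. -/
theorem result :
    (∃ (k : Type) (_ : Field k), CharP k 2 ∧ Infinite k) ∧
    ∀ (k : Type u) [Field k] [CharP k 2] [Infinite k],
      ∃ (A : Type u) (_ : Ring A) (_ : HopfAlgebra k A),
        Module.Finite k A ∧ Module.finrank k A = 4 ∧
        {P : A | IsLeftGroupLikeProjection k A P ∧ IsRightGroupLikeProjection k A P}.Infinite := by
  constructor
  · exact ⟨AlgebraicClosure (ZMod 2), inferInstance, inferInstance, inferInstance⟩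
  · intro k _ _ _
    refine ⟨Q11.HopfFour.H k, inferInstance, inferInstance, inferInstance,
      Q11.HopfFour.finrankH k, ?_⟩
    refine (Set.infinite_range_of_injective (Q11.HopfFour.P_inj k)).mono ?_
    rintro _ ⟨c, rfl⟩
    exact ⟨⟨Q11.HopfFour.P_ne k c, Q11.HopfFour.P_sq k c, Q11.HopfFour.left1 k c,
      Q11.HopfFour.left2 k c⟩, ⟨Q11.HopfFour.P_ne k c, Q11.HopfFour.P_sq k c,
      Q11.HopfFour.right1 k c, Q11.HopfFour.right2 k c⟩⟩

end Pool.Agent.Results.MP_2a0e18_al.InfinitelyManyProjections
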